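import Mathlib

set_option autoImplicit false

open Set TopologicalSpace Topology Cardinal

universe u v w

namespace Pool.Agent.Results.MP_d63cb0_gt.SmallCardinality

variable {X : Type u} [TopologicalSpace X]

/-- Extension of a `[0,1]`-valued function to the Stone–Čech compactification. -/
lemma exists_ext (f : C(X, ℝ)) (hf : ∀ x, f x ∈ Set.Icc (0 : ℝ) 1) :
    ∃ F : C(StoneCech X, ℝ), (∀ x, F (stoneCechUnit x) = f x) ∧ ∀ p, F p ∈ Set.Icc (0 : ℝ) 1 := by
  have hf' : Continuous (fun x => (⟨f x, hf x⟩ : Set.Icc (0 : ℝ) 1)) := f.continuous.subtype_mk _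
  refine ⟨⟨fun p => (stoneCechExtend hf' p).1,
    continuous_subtype_val.comp (continuous_stoneCechExtend hf')⟩, ?_, ?_⟩
  · intro x
    show ((stoneCechExtend hf' (stoneCechUnit x) : Set.Icc (0 : ℝ) 1) : ℝ) = f x
    rw [stoneCechExtend_stoneCechUnit]
  · intro p
    exact (stoneCechExtend hf' p).2

/-- Evaluation of the functions in `H` at the points of `X`. -/
def EH (H : Set C(StoneCech X, ℝ)) : X → (H → ℝ) := fun x h => h.1 (stoneCechUnit x)

/-- `f` factors continuously through the functions in `H`. -/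
def Fact (H : Set C(StoneCech X, ℝ)) (f : X → ℝ) : Prop :=
  @Continuous X ℝ (TopologicalSpace.induced (EH H) inferInstance) _ f

lemma Fact.mono {H H' : Set C(StoneCech X, ℝ)} (h : H ⊆ H') {f : X → ℝ} (hf : Fact H f) :
    Fact H' f := by
  unfold Fact at *
  refine continuous_le_dom ?_ hf
  have hr : Continuous (fun (z : H' → ℝ) (k : H) => z ⟨k.1, h k.2⟩) := by fun_prop
  have h1 := continuous_iff_le_induced.mp hr
  have h2 : EH H = (fun (z : H' → ℝ) (k : H) => z ⟨k.1, h k.2⟩) ∘ EH H' := rfl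
  rw [h2, ← induced_compose]
  exact induced_mono h1

lemma Fact.op₂ {H : Set C(StoneCech X, ℝ)} {f g : X → ℝ} (hf : Fact H f) (hg : Fact H g)
    (op : ℝ × ℝ → ℝ) (hop : Continuous op) : Fact H (fun x => op (f x, g x)) := by
  unfold Fact at *
  let _ : TopologicalSpace X := TopologicalSpace.induced (EH H) inferInstance
  exact hop.comp (Continuous.prodMk hf hg)

lemma Fact.inv {H : Set C(StoneCech X, ℝ)} {f : X → ℝ} (hf : Fact H f) (h0 : ∀ x, f x ≠ 0) :
    Fact H (fun x => (f x)⁻¹) := by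
  unfold Fact at *
  let _ : TopologicalSpace X := TopologicalSpace.induced (EH H) inferInstance
  exact Continuous.inv₀ hf h0

lemma fact_const (H : Set C(StoneCech X, ℝ)) (r : ℝ) : Fact H (fun _ => r) := by
  unfold Fact
  let _ : TopologicalSpace X := TopologicalSpace.induced (EH H) inferInstance
  exact continuous_const

lemma fact_self (H : Set C(StoneCech X, ℝ)) (k : C(StoneCech X, ℝ)) (hk : k ∈ H) :
    Fact H (fun x => k (stoneCechUnit x)) := by
  unfold Fact
  have h1 : @Continuous X (H → ℝ) (TopologicalSpace.induced (EH H) inferInstance) _ (EH H) :=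
    continuous_induced_dom
  exact @Continuous.comp X (H → ℝ) ℝ (TopologicalSpace.induced (EH H) inferInstance) _ _
    (EH H) (fun z => z ⟨k, hk⟩) (continuous_apply _) h1

lemma Fact.unif {H : Set C(StoneCech X, ℝ)} {f : X → ℝ}
    (h : ∀ ε : ℝ, 0 < ε → ∃ g : X → ℝ, Fact H g ∧ ∀ x, |f x - g x| < ε) : Fact H f := by
  unfold Fact at *
  let _ : TopologicalSpace X := TopologicalSpace.induced (EH H) inferInstance
  apply continuous_of_uniform_approx_of_continuous
  intro U hU
  obtain ⟨ε, hε, hεU⟩ := Metric.mem_uniformity_dist.mp hU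
  obtain ⟨g, hg, hfg⟩ := h ε hε
  refine ⟨g, hg, fun x => hεU ?_⟩
  rw [Real.dist_eq]
  exact hfg x

section core

variable {J : Type w} (g ψ : J → C(StoneCech X, ℝ)) (L Cl : Set (StoneCech X))

/-- The functions on the Stone–Čech compactification that are constant on the glued pairs. -/
def Cset : Set C(StoneCech X, ℝ) :=
  {k | ∀ p ∈ L, ∀ q ∈ Cl, (∀ j, ψ j q = g j p) → k q = k p}

/-- The algebra of continuous functions on `X` that factor continuously through countably many
functions of `Cset`. -/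
def Alg : Subalgebra ℝ C(X, ℝ) where
  carrier := {f | ∃ H : Set C(StoneCech X, ℝ), H.Countable ∧ H ⊆ Cset g ψ L Cl ∧ Fact H f}
  mul_mem' := by
    rintro f f' ⟨H, h1, h2, h3⟩ ⟨H', h1', h2', h3'⟩
    exact ⟨H ∪ H', h1.union h1', union_subset h2 h2',
      (h3.mono subset_union_left).op₂ (h3'.mono subset_union_right) (fun z => z.1 * z.2)
        (by fun_prop)⟩
  add_mem' := by
    rintro f f' ⟨H, h1, h2, h3⟩ ⟨H', h1', h2', h3'⟩
    exact ⟨H ∪ H', h1.union h1', union_subset h2 h2',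
      (h3.mono subset_union_left).op₂ (h3'.mono subset_union_right) (fun z => z.1 + z.2)
        (by fun_prop)⟩
  algebraMap_mem' := by
    intro r
    exact ⟨∅, countable_empty, empty_subset _, fact_const _ r⟩

lemma mem_alg_of_cset {k : C(StoneCech X, ℝ)} (hk : k ∈ Cset g ψ L Cl) :
    k.comp ⟨stoneCechUnit, continuous_stoneCechUnit⟩ ∈ Alg g ψ L Cl :=
  ⟨{k}, countable_singleton k, by simpa using hk, fact_self _ k rfl⟩

lemma alg_unif (f : C(X, ℝ))
    (h : ∀ ε : ℝ, 0 < ε → ∃ f' ∈ Alg g ψ L Cl, ∀ x : X, |f x - f' x| < ε) :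
    f ∈ Alg g ψ L Cl := by
  choose F hF hF' using fun n : ℕ => h (1 / (n + 1)) (by positivity)
  choose H h1 h2 h3 using hF
  refine ⟨⋃ n, H n, countable_iUnion h1, iUnion_subset h2, Fact.unif fun ε hε => ?_⟩
  obtain ⟨n, hn⟩ := exists_nat_one_div_lt hε
  exact ⟨F n, (h3 n).mono (subset_iUnion H n), fun x => (hF' n x).trans hn⟩

lemma alg_inv (f : C(X, ℝ)) (hf : f ∈ Alg g ψ L Cl) (f' : C(X, ℝ)) (h : f * f' = 1) :
    f' ∈ Alg g ψ L Cl := by
  obtain ⟨H, h1, h2, h3⟩ := hf
  have h4 : ∀ x, f x * f' x = 1 := fun x => by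
    have := congrArg (fun k : C(X, ℝ) => k x) h
    simpa using this
  have h5 : ∀ x, f x ≠ 0 := fun x h0 => by
    have := h4 x
    rw [h0, zero_mul] at this
    exact zero_ne_one this
  refine ⟨H, h1, h2, ?_⟩
  have h6 : (f' : X → ℝ) = fun x => (f x)⁻¹ := by
    funext x
    exact (inv_eq_of_mul_eq_one_right (h4 x)).symm
  rw [h6]
  exact h3.inv h5

/-- The data used to build an ALGEBRA that is not a `C(Y)`. -/
structure Core (w : C(StoneCech X, ℝ)) : Prop where
  hL : IsCompact L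
  hCl : IsClosed Cl
  gpos : ∀ j x, 0 < g j (stoneCechUnit x)
  ψpos : ∀ j x, 0 < ψ j (stoneCechUnit x)
  w0 : ∀ p ∈ Cl, w p = 0
  w1 : ∀ p ∈ L, w p = 1
  wI : ∀ p, w p ∈ Icc (0 : ℝ) 1
  cov : ∀ p ∈ L, ∃ j, g j p = 0
  surj : ∀ p ∈ L, ∃ q ∈ Cl, ∀ j, ψ j q = g j p

/-- The set of points that are glued. -/
def Bset : Set (StoneCech X) := L ∪ {q | q ∈ Cl ∧ ∃ p ∈ L, ∀ j, ψ j q = g j p}

variable {g ψ L Cl} {w : C(StoneCech X, ℝ)}

lemma Core.isClosed_B (h : Core g ψ L Cl w) : IsClosed (Bset g ψ L Cl) := by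
  refine h.hL.isClosed.union ?_
  have h1 : IsCompact ((L ×ˢ Cl) ∩
      ⋂ j, {z : StoneCech X × StoneCech X | ψ j z.2 = g j z.1}) := by
    have : IsClosed ((L ×ˢ Cl) ∩ ⋂ j, {z : StoneCech X × StoneCech X | ψ j z.2 = g j z.1}) := by
      apply IsClosed.inter (h.hL.isClosed.prod h.hCl)
      exact isClosed_iInter fun j => isClosed_eq (by fun_prop) (by fun_prop)
    exact this.isCompact
  have h2 := (h1.image continuous_snd).isClosed
  convert h2 using 1
  ext q
  constructor
  · rintro ⟨hq, p, hp, hj⟩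
    exact ⟨(p, q), ⟨⟨hp, hq⟩, mem_iInter.mpr hj⟩, rfl⟩
  · rintro ⟨⟨p, q⟩, ⟨⟨hp, hq⟩, hj⟩, rfl⟩
    exact ⟨hq, p, hp, mem_iInter.mp hj⟩

lemma Core.unit_notMem_B (h : Core g ψ L Cl w) (x : X) : stoneCechUnit x ∉ Bset g ψ L Cl := by
  rintro (hx | ⟨_, p, hp, hj⟩)
  · obtain ⟨j, hj⟩ := h.cov _ hx
    exact (h.gpos j x).ne' hj
  · obtain ⟨j, hj'⟩ := h.cov _ hp
    exact (h.ψpos j x).ne' ((hj j).trans hj')

lemma mem_cset_of_const {k : C(StoneCech X, ℝ)} (c : ℝ) (hk : ∀ p ∈ Bset g ψ L Cl, k p = c) :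
    k ∈ Cset g ψ L Cl := by
  intro p hp q hq hj
  rw [hk p (Or.inl hp), hk q (Or.inr ⟨hq, p, hp, hj⟩)]

lemma Core.exists_zero (h : Core g ψ L Cl w) (p : StoneCech X) (hp : p ∈ Bset g ψ L Cl) :
    ∃ k ∈ Cset g ψ L Cl, (∀ x, 0 < k (stoneCechUnit x)) ∧ k p = 0 := by
  have key : ∀ j, (w * g j + (1 - w) * ψ j) ∈ Cset g ψ L Cl := by
    intro j p hp q hq hj
    simp only [ContinuousMap.add_apply, ContinuousMap.mul_apply, ContinuousMap.sub_apply,
      ContinuousMap.one_apply]
    rw [h.w1 p hp, h.w0 q hq, hj j]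
    ring
  have kpos : ∀ j x, 0 < (w * g j + (1 - w) * ψ j) (stoneCechUnit x) := by
    intro j x
    simp only [ContinuousMap.add_apply, ContinuousMap.mul_apply, ContinuousMap.sub_apply,
      ContinuousMap.one_apply]
    have h1 := h.gpos j x
    have h2 := h.ψpos j x
    obtain ⟨h3, h4⟩ := h.wI (stoneCechUnit x)
    rcases lt_or_ge (w (stoneCechUnit x)) (1 / 2) with h5 | h5
    · nlinarith [mul_nonneg h3 h1.le]
    · nlinarith [mul_nonneg (sub_nonneg.mpr h4) h2.le]
  rcases hp with hp | ⟨hq, p', hp', hj⟩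
  · obtain ⟨j, hj⟩ := h.cov p hp
    refine ⟨_, key j, kpos j, ?_⟩
    simp only [ContinuousMap.add_apply, ContinuousMap.mul_apply, ContinuousMap.sub_apply,
      ContinuousMap.one_apply]
    rw [h.w1 p hp, hj]
    ring
  · obtain ⟨j, hj'⟩ := h.cov p' hp'
    refine ⟨_, key j, kpos j, ?_⟩
    simp only [ContinuousMap.add_apply, ContinuousMap.mul_apply, ContinuousMap.sub_apply,
      ContinuousMap.one_apply]
    rw [h.w0 p hq, hj j, hj']
    ring

/-- Urysohn functions in `Cset`. -/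
lemma Core.exists_urysohn (h : Core g ψ L Cl w) (p : StoneCech X) (hp : p ∉ Bset g ψ L Cl)
    (O : Set (StoneCech X)) (hO : IsOpen O) (hpO : p ∈ O) :
    ∃ k ∈ Cset g ψ L Cl, k p = 0 ∧ ∀ q, q ∉ O → k q = 1 := by
  have hcl : IsClosed (Oᶜ ∪ Bset g ψ L Cl) := hO.isClosed_compl.union h.isClosed_B
  have hd : Disjoint ({p} : Set (StoneCech X)) (Oᶜ ∪ Bset g ψ L Cl) := by
    rw [Set.disjoint_singleton_left]
    rintro (h1 | h1)
    · exact h1 hpO
    · exact hp h1
  obtain ⟨k, hk0, hk1, -⟩ := exists_continuous_zero_one_of_isClosed isClosed_singleton hcl hd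
  refine ⟨k, mem_cset_of_const 1 fun q hq => hk1 (Or.inr hq), hk0 rfl, fun q hq => hk1 (Or.inl hq)⟩

lemma Core.alg_sep [T35Space X] (h : Core g ψ L Cl w) (F : Set X) (x : X) (hF : IsClosed F)
    (hx : x ∉ F) : ∃ f ∈ Alg g ψ L Cl, f x ∉ closure (f '' F) := by
  have hind := (isInducing_stoneCechUnit (X := X))
  obtain ⟨C, hC, hCF⟩ := (hind.isClosed_iff).mp hF
  have hxC : stoneCechUnit x ∈ Cᶜ := fun h1 => hx (by rw [← hCF]; exact h1)
  obtain ⟨k, hk, hk0, hk1⟩ := h.exists_urysohn _ (h.unit_notMem_B x) Cᶜ hC.isOpen_compl hxC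
  refine ⟨_, mem_alg_of_cset g ψ L Cl hk, ?_⟩
  have hsub : closure ((k.comp ⟨stoneCechUnit, continuous_stoneCechUnit⟩ : C(X, ℝ)) '' F) ⊆ {1} := by
    apply closure_minimal _ isClosed_singleton
    rintro _ ⟨y, hy, rfl⟩
    apply hk1
    intro h1
    apply h1
    rw [← hCF] at hy
    exact hy
  intro h1
  have h2 := hsub h1
  have h3 : (k.comp ⟨stoneCechUnit, continuous_stoneCechUnit⟩ : C(X, ℝ)) x = 0 := hk0
  rw [h3] at h2
  exact zero_ne_one h2

/-- If the separating function belongs to the algebra, the compact set `L` is contained in a single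
zero set missing `X`. -/
lemma Core.small_of_mem (h : Core g ψ L Cl w) (hne : L.Nonempty)
    (hw : w.comp ⟨stoneCechUnit, continuous_stoneCechUnit⟩ ∈ Alg g ψ L Cl) :
    ∃ k : C(StoneCech X, ℝ), (∀ x, k (stoneCechUnit x) ≠ 0) ∧ ∀ p ∈ L, k p = 0 := by
  obtain ⟨H, hH, hHC, hF⟩ := hw
  have : Countable H := hH.to_subtype
  have hE : Continuous (fun (p : StoneCech X) (k : H) => k.1 p) :=
    continuous_pi fun k => k.1.continuous
  set E : StoneCech X → (H → ℝ) := fun p k => k.1 p with hEdef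
  let _ : MetricSpace (H → ℝ) := TopologicalSpace.metrizableSpaceMetric (H → ℝ)
  have hT : IsCompact (E '' L) := h.hL.image hE
  refine ⟨⟨fun p => Metric.infDist (E p) (E '' L),
    (Metric.continuous_infDist_pt _).comp hE⟩, ?_, ?_⟩
  · intro x h0
    have h1 : E (stoneCechUnit x) ∈ closure (E '' L) :=
      (Metric.mem_closure_iff_infDist_zero (hne.image E)).mpr h0
    rw [hT.isClosed.closure_eq] at h1
    obtain ⟨p, hp, hpx⟩ := h1
    obtain ⟨q, hq, hqj⟩ := h.surj p hp
    have hEq : E q = E p := funext fun k => hHC k.2 p hp q hq hqj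
    have hop : @IsOpen X (TopologicalSpace.induced (EH H) inferInstance)
        ((w.comp ⟨stoneCechUnit, continuous_stoneCechUnit⟩ : C(X, ℝ)) ⁻¹'
          Metric.ball (w (stoneCechUnit x)) (1 / 4)) :=
      @Continuous.isOpen_preimage X ℝ (TopologicalSpace.induced (EH H) inferInstance) _ _ hF _
        Metric.isOpen_ball
    obtain ⟨W, hW, hWeq⟩ := isOpen_induced_iff.mp hop
    have hxW : E (stoneCechUnit x) ∈ W := by
      have : x ∈ (EH H) ⁻¹' W := by
        rw [hWeq]
        exact Metric.mem_ball_self (by norm_num)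
      exact this
    have key : ∀ z : StoneCech X, E z = E (stoneCechUnit x) → |w z - w (stoneCechUnit x)| < 1 / 2 := by
      intro z hz
      have hO : IsOpen (E ⁻¹' W ∩ w ⁻¹' Metric.ball (w z) (1 / 4)) :=
        (hW.preimage hE).inter (Metric.isOpen_ball.preimage w.continuous)
      have hzO : z ∈ E ⁻¹' W ∩ w ⁻¹' Metric.ball (w z) (1 / 4) := by
        refine ⟨?_, Metric.mem_ball_self (by norm_num)⟩
        rw [mem_preimage, hz]
        exact hxW
      obtain ⟨y, hy1, hy2⟩ := denseRange_stoneCechUnit.exists_mem_open hO ⟨z, hzO⟩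
      have hy3 : y ∈ (EH H) ⁻¹' W := hy1
      rw [hWeq] at hy3
      have h4 : dist (w (stoneCechUnit y)) (w (stoneCechUnit x)) < 1 / 4 := hy3
      have h5 : dist (w (stoneCechUnit y)) (w z) < 1 / 4 := hy2
      rw [Real.dist_eq] at h4 h5
      rw [abs_lt] at h4 h5 ⊢
      constructor <;> linarith [h4.1, h4.2, h5.1, h5.2]
    have k1 := key p hpx
    have k2 := key q (hEq.trans hpx)
    rw [h.w1 p hp, abs_lt] at k1
    rw [h.w0 q hq, abs_lt] at k2
    linarith [k1.1, k1.2, k2.1, k2.2]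
  · intro p hp
    exact Metric.infDist_zero_of_mem (mem_image_of_mem E hp)

variable (g ψ L Cl) in
/-- `Cset` as a subalgebra. -/
def CAlg : Subalgebra ℝ C(StoneCech X, ℝ) where
  carrier := Cset g ψ L Cl
  mul_mem' := by
    intro a b ha hb p hp q hq hj
    simp only [ContinuousMap.mul_apply]
    rw [ha p hp q hq hj, hb p hp q hq hj]
  add_mem' := by
    intro a b ha hb p hp q hq hj
    simp only [ContinuousMap.add_apply]
    rw [ha p hp q hq hj, hb p hp q hq hj]
  algebraMap_mem' := by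
    intro r p hp q hq hj
    rfl

variable (g ψ L Cl) in
/-- Restriction to `X`. -/
noncomputable def rho : CAlg g ψ L Cl →ₐ[ℝ] Alg g ψ L Cl :=
  AlgHom.codRestrict ((ContinuousMap.compRightAlgHom ℝ ℝ
    (⟨stoneCechUnit, continuous_stoneCechUnit⟩ : C(X, StoneCech X))).comp (CAlg g ψ L Cl).val)
    (Alg g ψ L Cl) (fun k => mem_alg_of_cset g ψ L Cl k.2)

lemma rho_apply (k : CAlg g ψ L Cl) (x : X) : (rho g ψ L Cl k).1 x = k.1 (stoneCechUnit x) := rfl

lemma Core.mem_of_iso [T35Space X] (h : Core g ψ L Cl w) {Y : Type v} [TopologicalSpace Y]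
    (e : Alg g ψ L Cl ≃+* C(Y, ℝ)) :
    w.comp ⟨stoneCechUnit, continuous_stoneCechUnit⟩ ∈ Alg g ψ L Cl := by
  -- the homomorphisms
  let φ : Y → (Alg g ψ L Cl →+* ℝ) := fun y =>
    { toFun := fun a => e a y
      map_one' := by simp
      map_mul' := by intro a b; simp
      map_zero' := by simp
      map_add' := by intro a b; simp }
  have hφ : ∀ y a, φ y a = e a y := fun _ _ => rfl
  have hconst : ∀ y r, φ y (algebraMap ℝ _ r) = r := by
    intro y r
    have := Subsingleton.elim ((φ y).comp (algebraMap ℝ (Alg g ψ L Cl))) (RingHom.id ℝ)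
    exact RingHom.congr_fun this r
  have hinv : ∀ y (a : Alg g ψ L Cl), φ y a = 0 → ∃ x, a.1 x = 0 := by
    intro y a ha
    by_contra hcon
    push Not at hcon
    let b : C(X, ℝ) := ⟨fun x => (a.1 x)⁻¹, a.1.continuous.inv₀ hcon⟩
    have hab : a.1 * b = 1 := by
      ext x
      exact mul_inv_cancel₀ (hcon x)
    have hb : b ∈ Alg g ψ L Cl := alg_inv g ψ L Cl a.1 a.2 b hab
    have h1 : a * ⟨b, hb⟩ = 1 := Subtype.ext hab
    have h2 := congrArg (φ y) h1
    rw [map_mul, ha, zero_mul, map_one] at h2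
    exact zero_ne_one h2
  have hP : ∀ y, ∃ p : StoneCech X, ∀ k : CAlg g ψ L Cl, k.1 p = φ y (rho g ψ L Cl k) := by
    intro y
    have := isCompact_univ.inter_iInter_nonempty
      (fun k : CAlg g ψ L Cl => {p : StoneCech X | k.1 p = φ y (rho g ψ L Cl k)})
      (fun k => isClosed_eq k.1.continuous continuous_const) (by
        intro s
        let b : CAlg g ψ L Cl := ∑ k ∈ s, (k - algebraMap ℝ _ (φ y (rho g ψ L Cl k))) ^ 2
        have hb : φ y (rho g ψ L Cl b) = 0 := by
          simp only [b, map_sum, map_pow, map_sub, AlgHom.commutes, hconst, sub_self]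
          simp
        obtain ⟨x, hx⟩ := hinv y _ hb
        refine ⟨stoneCechUnit x, mem_univ _, ?_⟩
        rw [mem_iInter₂]
        intro k hk
        rw [rho_apply] at hx
        have h1 : (b.1 : C(StoneCech X, ℝ)) (stoneCechUnit x) =
            ∑ k ∈ s, (k.1 (stoneCechUnit x) - φ y (rho g ψ L Cl k)) ^ 2 := by
          simp only [b]
          rw [AddSubmonoidClass.coe_finsetSum, ContinuousMap.sum_apply]
          rfl
        rw [h1] at hx
        have h2 := (Finset.sum_eq_zero_iff_of_nonneg (fun k _ => sq_nonneg _)).mp hx k hk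
        have h3 := pow_eq_zero_iff (two_ne_zero) |>.mp h2
        exact sub_eq_zero.mp h3)
    obtain ⟨p, -, hp⟩ := this
    exact ⟨p, fun k => mem_iInter.mp hp k⟩
  choose P hP using hP
  have hPB : ∀ y, P y ∉ Bset g ψ L Cl := by
    intro y hy
    obtain ⟨k, hk, hkpos, hk0⟩ := h.exists_zero _ hy
    have h1 := hP y ⟨k, hk⟩
    obtain ⟨x, hx⟩ := hinv y _ (h1.symm.trans hk0)
    rw [rho_apply] at hx
    exact (hkpos x).ne' hx
  have hG : Continuous (fun y => w (P y)) := by
    rw [continuous_iff_continuousAt]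
    intro y
    rw [ContinuousAt, Metric.tendsto_nhds]
    intro ε hε
    have hO : IsOpen (w ⁻¹' Metric.ball (w (P y)) ε) := Metric.isOpen_ball.preimage w.continuous
    obtain ⟨k, hk, hk0, hk1⟩ := h.exists_urysohn (P y) (hPB y) _ hO (Metric.mem_ball_self hε)
    have h1 : e (rho g ψ L Cl ⟨k, hk⟩) y < 1 := by
      rw [← hφ, ← hP y ⟨k, hk⟩]
      show k (P y) < 1
      rw [hk0]; norm_num
    filter_upwards [(e (rho g ψ L Cl ⟨k, hk⟩)).continuous.continuousAt.eventually (Iio_mem_nhds h1)]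
      with y' hy'
    by_contra hcon
    have h2 := hk1 (P y') (fun h3 => hcon h3)
    have h3 : e (rho g ψ L Cl ⟨k, hk⟩) y' = k (P y') := by rw [← hφ, ← hP y' ⟨k, hk⟩]
    have h4 : e (rho g ψ L Cl ⟨k, hk⟩) y' < 1 := hy'
    rw [h3, h2] at h4
    exact lt_irrefl _ h4
  let G : C(Y, ℝ) := ⟨fun y => w (P y), hG⟩
  let a := e.symm G
  have ha : ∀ y, φ y a = w (P y) := by
    intro y
    rw [hφ, e.apply_symm_apply]
    rfl
  have haw : a.1 = w.comp ⟨stoneCechUnit, continuous_stoneCechUnit⟩ := by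
    ext x0
    show a.1 x0 = w (stoneCechUnit x0)
    by_contra hne
    have hε : 0 < |a.1 x0 - w (stoneCechUnit x0)| / 2 := by
      have := abs_pos.mpr (sub_ne_zero.mpr hne)
      linarith
    set ε := |a.1 x0 - w (stoneCechUnit x0)| / 2 with hεdef
    have hop : IsOpen (a.1 ⁻¹' Metric.ball (a.1 x0) ε) := Metric.isOpen_ball.preimage a.1.continuous
    obtain ⟨O', hO', hO'eq⟩ := ((isInducing_stoneCechUnit (X := X)).isOpen_iff).mp hop
    have hx0O' : stoneCechUnit x0 ∈ O' := by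
      have : x0 ∈ stoneCechUnit ⁻¹' O' := by
        rw [hO'eq]; exact Metric.mem_ball_self hε
      exact this
    obtain ⟨k, hk, hk0, hk1⟩ := h.exists_urysohn (stoneCechUnit x0) (h.unit_notMem_B x0)
      (O' ∩ w ⁻¹' Metric.ball (w (stoneCechUnit x0)) ε)
      (hO'.inter (Metric.isOpen_ball.preimage w.continuous)) ⟨hx0O', Metric.mem_ball_self hε⟩
    obtain ⟨k', hk'⟩ : ∃ k' : CAlg g ψ L Cl, ∀ p, k'.1 p = 1 - k p :=
      ⟨1 - ⟨k, hk⟩, fun _ => rfl⟩
    have hne0 : rho g ψ L Cl k' ≠ 0 := by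
      intro h0
      have h1 : (rho g ψ L Cl k').1 x0 = 0 := by rw [h0]; rfl
      rw [rho_apply, hk', hk0] at h1
      norm_num at h1
    have hne1 : e (rho g ψ L Cl k') ≠ 0 := by
      intro h0
      exact hne0 (e.injective (by rw [h0, map_zero]))
    obtain ⟨y, hy⟩ : ∃ y, e (rho g ψ L Cl k') y ≠ 0 := by
      by_contra hcon
      push Not at hcon
      exact hne1 (ContinuousMap.ext hcon)
    rw [← hφ, ← hP y k'] at hy
    have hout : ∀ p, k'.1 p ≠ 0 → p ∈ O' ∩ w ⁻¹' Metric.ball (w (stoneCechUnit x0)) ε := by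
      intro p hp
      by_contra hcon
      apply hp
      rw [hk', hk1 p hcon, sub_self]
    have hPy := (hout _ hy).2
    -- a point of X with the same values
    have hz : φ y (rho g ψ L Cl ((k' - algebraMap ℝ _ (k'.1 (P y))) ^ 2) +
        (a - algebraMap ℝ _ (φ y a)) ^ 2) = 0 := by
      rw [map_add, map_pow, map_pow, map_pow, map_sub, map_sub, map_sub, AlgHom.commutes, hconst,
        hconst, ← hP y k']
      simp
    obtain ⟨x, hx⟩ := hinv y _ hz
    have hx' : (k'.1 (stoneCechUnit x) - k'.1 (P y)) ^ 2 + (a.1 x - φ y a) ^ 2 = 0 := hx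
    have h1 : k'.1 (stoneCechUnit x) = k'.1 (P y) := by nlinarith [sq_nonneg (a.1 x - φ y a), sq_nonneg (k'.1 (stoneCechUnit x) - k'.1 (P y))]
    have h2 : a.1 x = φ y a := by nlinarith [sq_nonneg (a.1 x - φ y a), sq_nonneg (k'.1 (stoneCechUnit x) - k'.1 (P y))]
    have h3 : stoneCechUnit x ∈ O' := (hout _ (by rw [h1]; exact hy)).1
    have h4 : x ∈ a.1 ⁻¹' Metric.ball (a.1 x0) ε := by rw [← hO'eq]; exact h3
    have h5 : dist (a.1 x) (a.1 x0) < ε := h4
    have h6 : dist (w (P y)) (w (stoneCechUnit x0)) < ε := hPy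
    rw [h2, ha y] at h5
    rw [Real.dist_eq] at h5 h6
    have h7 : |a.1 x0 - w (stoneCechUnit x0)| < 2 * ε := by
      rw [abs_lt] at h5 h6 ⊢
      constructor <;> linarith [h5.1, h5.2, h6.1, h6.2]
    rw [hεdef] at h7
    linarith
  rw [← haw]
  exact a.2

end core

/-- Uniformly closed subalgebras of `C(X)` closed under inversion and separating points from closed
sets are algebras `C(Y)`. -/
def EveryALGEBRA (X : Type u) [TopologicalSpace X] : Prop :=
  ∀ A : Subalgebra ℝ C(X, ℝ),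
    (∀ f : C(X, ℝ), (∀ ε : ℝ, 0 < ε → ∃ g ∈ A, ∀ x : X, |f x - g x| < ε) → f ∈ A) →
    (∀ (F : Set X) (x : X), IsClosed F → x ∉ F → ∃ f ∈ A, f x ∉ closure (f '' F)) →
    (∀ f ∈ A, ∀ g : C(X, ℝ), f * g = 1 → g ∈ A) →
    ∃ (Y : Type v) (_ : TopologicalSpace Y), Nonempty (A ≃+* C(Y, ℝ))

/-- `L` is contained in a single zero set missing `X`. -/
def Small (L : Set (StoneCech X)) : Prop :=
  ∃ k : C(StoneCech X, ℝ), (∀ x : X, k (stoneCechUnit x) ≠ 0) ∧ ∀ p ∈ L, k p = 0

lemma small_of_core [T35Space X] (halg : EveryALGEBRA.{u, v} X) {J : Type w}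
    {g ψ : J → C(StoneCech X, ℝ)} {L Cl : Set (StoneCech X)} {w : C(StoneCech X, ℝ)}
    (h : Core g ψ L Cl w) : Small L := by
  rcases L.eq_empty_or_nonempty with rfl | hne
  · exact ⟨1, fun x => by simp, by simp⟩
  obtain ⟨Y, tY, ⟨e⟩⟩ := halg (Alg g ψ L Cl) (fun f hf => alg_unif g ψ L Cl f hf)
    (fun F x hF hx => h.alg_sep F x hF hx) (fun f hf f' hff' => alg_inv g ψ L Cl f hf f' hff')
  exact h.small_of_mem hne (h.mem_of_iso e)

/-- Approximately independent families on an infinite set. -/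
lemma exists_independent (ι : Type u) [Infinite ι] (J : Type w) (S : J → Set ι)
    (hS : Function.Injective S) :
    ∃ φ : J → ι → ℝ, (∀ j i, 0 < φ j i ∧ φ j i ≤ 1) ∧
      ∀ (s : Finset J) (t : J → ℝ), (∀ j, t j ∈ Icc (0 : ℝ) 1) → ∀ ε : ℝ, 0 < ε →
        ∃ i, ∀ j ∈ s, |φ j i - t j| < ε := by
  classical
  have hcard : #ι = #(Finset ι × (Finset ι →₀ ℚ)) := by
    rw [Cardinal.mk_prod, Cardinal.mk_finsupp_lift_of_infinite, Cardinal.mk_finset_of_infinite]
    simp only [Cardinal.lift_id, Cardinal.mkRat, Cardinal.lift_aleph0,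
      Cardinal.lift_uzero]
    rw [max_eq_left (Cardinal.aleph0_le_mk ι), Cardinal.mul_eq_self (Cardinal.aleph0_le_mk ι)]
  obtain ⟨c⟩ := Cardinal.eq.mp hcard
  let cl : ℚ → ℝ := fun q => if 0 < q ∧ q ≤ 1 then (q : ℝ) else 1
  have hcl : ∀ q, 0 < cl q ∧ cl q ≤ 1 := by
    intro q
    by_cases hq : 0 < q ∧ q ≤ 1
    · simp only [cl, if_pos hq]
      exact ⟨by exact_mod_cast hq.1, by exact_mod_cast hq.2⟩
    · simp only [cl, if_neg hq]
      norm_num
  refine ⟨fun j i => cl ((c i).2 ((c i).1.filter (· ∈ S j))), fun j i => hcl _, ?_⟩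
  intro s t ht ε hε
  -- separating finite set
  have hsep : ∀ z : J × J, z.1 ≠ z.2 → ∃ x : ι, ¬ (x ∈ S z.1 ↔ x ∈ S z.2) := by
    intro z hz
    by_contra hcon
    push Not at hcon
    exact hz (hS (Set.ext hcon))
  let pt : J × J → ι := fun z => if h : z.1 ≠ z.2 then (hsep z h).choose else Classical.arbitrary ι
  let F0 : Finset ι := (s ×ˢ s).image pt
  have hinj : ∀ j ∈ s, ∀ j' ∈ s, F0.filter (· ∈ S j) = F0.filter (· ∈ S j') → j = j' := by
    intro j hj j' hj' heq
    by_contra hne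
    have h1 := (hsep (j, j') hne).choose_spec
    have h2 : pt (j, j') = (hsep (j, j') hne).choose := by
      simp only [pt]
      rw [dif_pos hne]
    rw [← h2] at h1
    have h3 : pt (j, j') ∈ F0 := Finset.mem_image_of_mem pt (Finset.mem_product.mpr ⟨hj, hj'⟩)
    apply h1
    have h4 := Finset.ext_iff.mp heq (pt (j, j'))
    simp only [Finset.mem_filter, h3, true_and] at h4
    exact h4
  have hq : ∀ j, ∃ q : ℚ, (0 < q ∧ q ≤ 1) ∧ |(q : ℝ) - t j| < ε := by
    intro j
    obtain ⟨h0, h1⟩ := ht j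
    have : max 0 (t j - ε) < min 1 (t j + ε) := by
      rw [max_lt_iff, lt_min_iff, lt_min_iff]
      exact ⟨⟨by norm_num, by linarith⟩, ⟨by linarith, by linarith⟩⟩
    obtain ⟨q, hq1, hq2⟩ := exists_rat_btwn this
    rw [max_lt_iff] at hq1
    rw [lt_min_iff] at hq2
    refine ⟨q, ⟨by exact_mod_cast hq1.1, by exact_mod_cast hq2.1.le⟩, ?_⟩
    rw [abs_lt]
    constructor <;> linarith [hq1.2, hq2.2]
  choose q hq1 hq2 using hq
  let P0 : Finset ι →₀ ℚ := ∑ j ∈ s, Finsupp.single (F0.filter (· ∈ S j)) (q j)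
  refine ⟨c.symm (F0, P0), fun j hj => ?_⟩
  have h1 : P0 (F0.filter (· ∈ S j)) = q j := by
    simp only [P0]
    rw [Finsupp.finsetSum_apply, Finset.sum_eq_single j]
    · rw [Finsupp.single_eq_same]
    · intro j' hj' hne
      apply Finsupp.single_eq_of_ne
      intro heq
      exact hne (hinj j' hj' j hj heq.symm)
    · intro h; exact absurd hj h
  simp only [Equiv.apply_symm_apply]
  rw [h1]
  simp only [cl, if_pos (hq1 j)]
  exact hq2 j

/-- Extending a positive function from a `C`-embedded set. -/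
lemma exists_psi {ι : Type*} (d : ι → X)
    (hd : ∀ c : ι → ℝ, ∃ F : C(X, ℝ), ∀ i, F (d i) = c i) (φ : ι → ℝ)
    (hφ : ∀ i, 0 < φ i ∧ φ i ≤ 1) :
    ∃ ψ : C(StoneCech X, ℝ), (∀ x, 0 < ψ (stoneCechUnit x)) ∧
      ∀ i, ψ (stoneCechUnit (d i)) = φ i := by
  obtain ⟨F, hF⟩ := hd (fun i => (φ i)⁻¹)
  have hpos : ∀ x, 0 < max (F x) 1 := fun x => lt_of_lt_of_le one_pos (le_max_right _ _)
  let f : C(X, ℝ) := ⟨fun x => (max (F x) 1)⁻¹,
    (F.continuous.max continuous_const).inv₀ fun x => (hpos x).ne'⟩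
  obtain ⟨ψ, h1, -⟩ := exists_ext f (fun x => ⟨(inv_pos.mpr (hpos x)).le,
    inv_le_one_of_one_le₀ (le_max_right _ _)⟩)
  refine ⟨ψ, fun x => ?_, fun i => ?_⟩
  · rw [h1]; exact inv_pos.mpr (hpos x)
  · rw [h1]
    show (max (F (d i)) 1)⁻¹ = φ i
    rw [hF, max_eq_left ((one_le_inv₀ (hφ i).1).mpr (hφ i).2), inv_inv]

/-- The main construction, with a separating function already given. -/
lemma small_of_sep [T35Space X] (halg : EveryALGEBRA.{u, v} X) {ι : Type u} [Infinite ι]
    (d : ι → X) (hd : ∀ c : ι → ℝ, ∃ F : C(X, ℝ), ∀ i, F (d i) = c i)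
    {J : Type w} (S : J → Set ι) (hS : Function.Injective S) (g : J → C(StoneCech X, ℝ))
    (gpos : ∀ j x, 0 < g j (stoneCechUnit x)) (gI : ∀ j p, g j p ∈ Icc (0 : ℝ) 1)
    (L : Set (StoneCech X)) (hL : IsCompact L) (cov : ∀ p ∈ L, ∃ j, g j p = 0)
    (χ : C(StoneCech X, ℝ)) (β : ℝ) (hβ : ∀ i, χ (stoneCechUnit (d i)) = β)
    (hχL : ∀ p ∈ L, 1 / 2 ≤ |χ p - β|) : Small L := by
  obtain ⟨φ, hφ1, hφ2⟩ := exists_independent ι J S hS
  choose ψ hψ1 hψ2 using fun j => exists_psi d hd (φ j) (hφ1 j)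
  let w : C(StoneCech X, ℝ) := ⟨fun p => min 1 (2 * |χ p - β|), by fun_prop⟩
  have hw : ∀ p, w p = min 1 (2 * |χ p - β|) := fun _ => rfl
  have hcl : ∀ p ∈ closure (range fun i => stoneCechUnit (d i)), χ p = β := by
    have : closure (range fun i => stoneCechUnit (d i)) ⊆ {p | χ p = β} := by
      apply closure_minimal _ (isClosed_eq χ.continuous continuous_const)
      rintro _ ⟨i, rfl⟩
      exact hβ i
    exact this
  have hcore : Core g ψ L (closure (range fun i => stoneCechUnit (d i))) w := by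
    refine ⟨hL, isClosed_closure, gpos, hψ1, ?_, ?_, ?_, cov, ?_⟩
    · intro p hp
      rw [hw, hcl p hp, sub_self, abs_zero, mul_zero]
      norm_num
    · intro p hp
      rw [hw]
      apply min_eq_left
      linarith [hχL p hp]
    · intro p
      rw [hw]
      exact ⟨le_min zero_le_one (by positivity), min_le_left _ _⟩
    · intro p hp
      have := isClosed_closure.isCompact.inter_iInter_nonempty
        (s := closure (range fun i => (stoneCechUnit (d i) : StoneCech X)))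
        (fun z : J × ℕ => {q : StoneCech X | |ψ z.1 q - g z.1 p| ≤ 1 / (z.2 + 1 : ℝ)})
        (fun z => isClosed_le (by fun_prop) continuous_const) (by
          intro s
          classical
          obtain ⟨i, hi⟩ := hφ2 (s.image Prod.fst) (fun j => g j p) (fun j => gI j p)
            (1 / ((s.sup Prod.snd : ℕ) + 1 : ℝ)) (by positivity)
          refine ⟨stoneCechUnit (d i), subset_closure ⟨i, rfl⟩, ?_⟩
          rw [mem_iInter₂]
          intro z hz
          show |ψ z.1 (stoneCechUnit (d i)) - g z.1 p| ≤ 1 / (z.2 + 1 : ℝ)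
          rw [hψ2]
          refine (hi z.1 (Finset.mem_image_of_mem _ hz)).le.trans ?_
          apply one_div_le_one_div_of_le (by positivity)
          have : z.2 ≤ s.sup Prod.snd := Finset.le_sup hz
          have : (z.2 : ℝ) ≤ ((s.sup Prod.snd : ℕ) : ℝ) := by exact_mod_cast this
          linarith)
      obtain ⟨q, hq, hq2⟩ := this
      refine ⟨q, hq, fun j => ?_⟩
      rw [mem_iInter] at hq2
      by_contra hne
      have hpos : 0 < |ψ j q - g j p| := abs_pos.mpr (sub_ne_zero.mpr hne)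
      obtain ⟨n, hn⟩ := exists_nat_one_div_lt hpos
      have := hq2 (j, n)
      have h3 : |ψ j q - g j p| ≤ 1 / (n + 1 : ℝ) := this
      linarith
  exact small_of_core halg hcore

/-- **Main theorem, covering form.** -/
theorem small_of_cover [T35Space X] (halg : EveryALGEBRA.{u, v} X) (D : Set X)
    (hD : ∀ c : D → ℝ, ∃ F : C(X, ℝ), ∀ i : D, F i = c i)
    (Z : Set C(StoneCech X, ℝ)) (hZ : #Z ≤ 2 ^ #D)
    (hZ0 : ∀ g ∈ Z, ∀ x : X, g (stoneCechUnit x) ≠ 0)
    (L : Set (StoneCech X)) (hL : IsCompact L) (cov : ∀ p ∈ L, ∃ g ∈ Z, g p = 0) : Small L := by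
  classical
  rcases finite_or_infinite D with hfin | hinf
  · -- finitely many zero sets
    have hZfin : Z.Finite := by
      have h1 : #Z < ℵ₀ := lt_of_le_of_lt hZ (by
        apply Cardinal.power_lt_aleph0
        · exact Cardinal.natCast_lt_aleph0 (n := 2)
        · exact Cardinal.lt_aleph0_of_finite D)
      exact Set.finite_coe_iff.mp (Cardinal.lt_aleph0_iff_finite.mp h1)
    refine ⟨∏ g ∈ hZfin.toFinset, g, fun x => ?_, fun p hp => ?_⟩
    · rw [ContinuousMap.prod_apply]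
      exact Finset.prod_ne_zero_iff.mpr fun g hg => hZ0 g (hZfin.mem_toFinset.mp hg) x
    · obtain ⟨g, hg, hgp⟩ := cov p hp
      rw [ContinuousMap.prod_apply]
      exact Finset.prod_eq_zero (hZfin.mem_toFinset.mpr hg) hgp
  · -- the infinite case
    rw [← Cardinal.mk_set] at hZ
    obtain ⟨S⟩ := hZ
    let g : Z → C(StoneCech X, ℝ) := fun z => ⟨fun p => min |z.1 p| 1, by fun_prop⟩
    have gpos : ∀ j x, 0 < g j (stoneCechUnit x) := fun j x =>
      lt_min (abs_pos.mpr (hZ0 j.1 j.2 x)) one_pos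
    have gI : ∀ j p, g j p ∈ Icc (0 : ℝ) 1 := fun j p =>
      ⟨le_min (abs_nonneg _) zero_le_one, min_le_right _ _⟩
    have gcov : ∀ p ∈ L, ∃ j, g j p = 0 := by
      intro p hp
      obtain ⟨z, hz, hzp⟩ := cov p hp
      refine ⟨⟨z, hz⟩, ?_⟩
      show min |z p| 1 = 0
      rw [hzp, abs_zero]
      norm_num
    -- split `D` into two halves
    have hcard : #D = #(D × ULift.{u} Bool) := by
      rw [Cardinal.mk_prod, Cardinal.lift_id, Cardinal.lift_id]
      have : #(ULift.{u} Bool) ≤ #D := (Cardinal.lt_aleph0_of_finite _).le.trans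
        (Cardinal.aleph0_le_mk D)
      rw [Cardinal.mul_eq_left (Cardinal.aleph0_le_mk D) this]
      exact Cardinal.mk_ne_zero _
    obtain ⟨e⟩ := Cardinal.eq.mp hcard
    obtain ⟨F, hF⟩ := hD (fun i => if (e i).2.down then 1 else 0)
    obtain ⟨χ, hχ1, hχ2⟩ := exists_ext (X := X) ⟨fun x => max 0 (min 1 (F x)), by fun_prop⟩
      (fun x => ⟨le_max_left _ _, max_le zero_le_one (min_le_left _ _)⟩)
    have hχ : ∀ (i : D) (b : Bool), χ (stoneCechUnit ((e.symm (i, ⟨b⟩) : D) : X)) =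
        if b then 1 else 0 := by
      intro i b
      rw [hχ1]
      show max 0 (min 1 (F _)) = _
      rw [hF, Equiv.apply_symm_apply]
      cases b <;> simp
    have hhalf : ∀ b : Bool, Small (L ∩ {p | 1 / 2 ≤ |χ p - (if b then 1 else 0)|}) := by
      intro b
      refine small_of_sep halg (ι := D) (fun i => ((e.symm (i, ⟨b⟩) : D) : X)) ?_ S S.injective g
        gpos gI _ (hL.inter_right ?_) (fun p hp => gcov p hp.1) χ (if b then 1 else 0)
        (fun i => hχ i b) (fun p hp => hp.2)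
      · intro c
        obtain ⟨F', hF'⟩ := hD (fun z => c (e z).1)
        refine ⟨F', fun i => ?_⟩
        rw [hF', Equiv.apply_symm_apply]
      · exact isClosed_le continuous_const (by fun_prop)
    obtain ⟨k1, h1, h1'⟩ := hhalf true
    obtain ⟨k0, h0, h0'⟩ := hhalf false
    refine ⟨k1 * k0, fun x => mul_ne_zero (h1 x) (h0 x), fun p hp => ?_⟩
    show k1 p * k0 p = 0
    rcases le_or_gt (1 / 2) |χ p - 1| with h2 | h2
    · rw [h1' p ⟨hp, by simpa using h2⟩, zero_mul]
    · rw [h0' p ⟨hp, ?_⟩, mul_zero]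
      show 1 / 2 ≤ |χ p - (if false = true then 1 else 0)|
      simp only [Bool.false_eq_true, if_false, sub_zero]
      rw [abs_lt] at h2
      exact le_trans (by linarith [h2.1]) (le_abs_self _)

/-- The Hewitt realcompactification inside the Stone–Čech compactification. -/
def Ups (X : Type u) [TopologicalSpace X] : Set (StoneCech X) :=
  {p : StoneCech X | ∀ f : C(X, ℝ), ∀ g : C(StoneCech X, EReal),
      (∀ x : X, g (stoneCechUnit x) = ((f x : ℝ) : EReal)) → ∃ r : ℝ, g p = (r : EReal)}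

/-- A continuous `EReal`-valued function bounded on `X` near `p` is real at `p`. -/
lemma real_of_bounded_near (g : C(StoneCech X, EReal)) (p : StoneCech X) (O : Set (StoneCech X))
    (hO : IsOpen O) (hp : p ∈ O) (M : ℝ)
    (hM : ∀ x : X, stoneCechUnit x ∈ O →
      g (stoneCechUnit x) ∈ Icc ((-M : ℝ) : EReal) ((M : ℝ) : EReal)) :
    ∃ r : ℝ, g p = (r : EReal) := by
  have h1 : g p ∈ Icc ((-M : ℝ) : EReal) ((M : ℝ) : EReal) := by
    by_contra hcon
    have hO' : IsOpen (O ∩ g ⁻¹' (Icc ((-M : ℝ) : EReal) ((M : ℝ) : EReal))ᶜ) :=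
      hO.inter (isClosed_Icc.isOpen_compl.preimage g.continuous)
    obtain ⟨x, hx1, hx2⟩ := denseRange_stoneCechUnit.exists_mem_open hO' ⟨p, hp, hcon⟩
    exact hx2 (hM x hx1)
  refine ⟨(g p).toReal, (EReal.coe_toReal ?_ ?_).symm⟩
  · intro h
    rw [h] at h1
    exact absurd h1.2 (by simp)
  · intro h
    rw [h] at h1
    exact absurd h1.1 (by simp)

lemma exists_zero_of_notMem (p : StoneCech X) (hp : p ∉ Ups X) :
    ∃ h : C(StoneCech X, ℝ), (∀ x : X, h (stoneCechUnit x) ≠ 0) ∧ h p = 0 := by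
  simp only [Ups, mem_ofPred_eq, not_forall] at hp
  obtain ⟨f, g, hfg, hr⟩ := hp
  have hpos : ∀ x, 0 < 1 + |f x| := fun x => by positivity
  obtain ⟨h, h1, h2⟩ := exists_ext (X := X) ⟨fun x => (1 + |f x|)⁻¹,
    (by fun_prop : Continuous fun x => 1 + |f x|).inv₀ fun x => (hpos x).ne'⟩
    (fun x => ⟨(inv_pos.mpr (hpos x)).le, inv_le_one_of_one_le₀ (by
      have := abs_nonneg (f x); linarith)⟩)
  refine ⟨h, fun x => ?_, ?_⟩
  · rw [h1]; exact (inv_pos.mpr (hpos x)).ne'
  · by_contra hne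
    have hp0 : 0 < h p := lt_of_le_of_ne (h2 p).1 (Ne.symm hne)
    apply hr
    refine real_of_bounded_near g p {q | h p / 2 < h q}
      (isOpen_lt continuous_const h.continuous) (by show h p / 2 < h p; linarith) (2 / h p) ?_
    intro x hx
    have hx' : h p / 2 < (1 + |f x|)⁻¹ := by
      have h3 : h p / 2 < h (stoneCechUnit x) := hx
      rw [h1 x] at h3
      exact h3
    have h3 : 1 + |f x| < 2 / h p := by
      rw [lt_div_iff₀ hp0]
      rw [lt_inv_comm₀ (by positivity) (hpos x)] at hx'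
      rw [inv_div] at hx'
      rw [lt_div_iff₀ hp0] at hx'
      linarith
    have h4 : |f x| ≤ 2 / h p := by linarith
    rw [hfg x, mem_Icc, EReal.coe_le_coe_iff, EReal.coe_le_coe_iff]
    exact abs_le.mp h4

lemma ups_nonzero (h : C(StoneCech X, ℝ)) (h0 : ∀ x : X, h (stoneCechUnit x) ≠ 0)
    (p : StoneCech X) (hp : p ∈ Ups X) : h p ≠ 0 := by
  intro hp0
  let f : C(X, ℝ) := ⟨fun x => |h (stoneCechUnit x)|⁻¹,
    (h.continuous.comp continuous_stoneCechUnit).abs.inv₀ fun x => (abs_pos.mpr (h0 x)).ne'⟩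
  let g : C(StoneCech X, EReal) := ⟨fun q => (((ENNReal.ofReal |h q|)⁻¹ : ENNReal) : EReal), by
    apply continuous_coe_ennreal_ereal.comp
    exact (ENNReal.continuous_ofReal.comp h.continuous.abs).inv⟩
  obtain ⟨r, hr⟩ := hp f g (by
    intro x
    show (((ENNReal.ofReal |h (stoneCechUnit x)|)⁻¹ : ENNReal) : EReal) =
      ((|h (stoneCechUnit x)|⁻¹ : ℝ) : EReal)
    rw [← ENNReal.ofReal_inv_of_pos (abs_pos.mpr (h0 x)), EReal.coe_ennreal_ofReal,
      max_eq_left (inv_nonneg.mpr (abs_nonneg _))])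
  have hr' : (((ENNReal.ofReal |h p|)⁻¹ : ENNReal) : EReal) = (r : EReal) := hr
  rw [hp0, abs_zero, ENNReal.ofReal_zero, ENNReal.inv_zero, EReal.coe_ennreal_top] at hr'
  exact EReal.coe_ne_top r hr'.symm

lemma lindelof_of_small (H : ∀ L : Set (StoneCech X), IsCompact L → (∀ p ∈ L, p ∉ Ups X) → Small L) :
    IsLindelof (Ups X) := by
  apply isLindelof_of_countable_subcover
  intro κ U hU hcov
  obtain ⟨h, h1, h2⟩ := H (⋃ i, U i)ᶜ (isOpen_iUnion hU).isClosed_compl.isCompact
    (fun p hp hp' => hp (hcov hp'))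
  have hK : ∀ n : ℕ, ∃ t : Finset κ, {p | 1 / (n + 1 : ℝ) ≤ |h p|} ⊆ ⋃ i ∈ t, U i := by
    intro n
    have hc : IsCompact {p | 1 / (n + 1 : ℝ) ≤ |h p|} :=
      (isClosed_le continuous_const (by fun_prop)).isCompact
    refine hc.elim_finite_subcover U hU ?_
    intro p hp
    by_contra hcon
    have h3 : h p = 0 := h2 p hcon
    have h4 : 1 / (n + 1 : ℝ) ≤ |h p| := hp
    rw [h3, abs_zero] at h4
    have : (0 : ℝ) < 1 / (n + 1 : ℝ) := by positivity
    linarith
  choose t ht using hK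
  refine ⟨⋃ n, (t n : Set κ), countable_iUnion fun n => (t n).countable_toSet, ?_⟩
  intro p hp
  have hpne := ups_nonzero h h1 p hp
  obtain ⟨n, hn⟩ := exists_nat_one_div_lt (abs_pos.mpr hpne)
  have := ht n (show p ∈ {p | 1 / (n + 1 : ℝ) ≤ |h p|} from hn.le)
  rw [mem_iUnion₂] at this ⊢
  obtain ⟨i, hi, hpi⟩ := this
  exact ⟨i, mem_iUnion.mpr ⟨n, hi⟩, hpi⟩

lemma card_le_of_dense : #C(StoneCech X, ℝ) ≤ #C(X, ℝ) := by
  refine Cardinal.mk_le_of_injective
    (f := fun h : C(StoneCech X, ℝ) => h.comp ⟨stoneCechUnit, continuous_stoneCechUnit⟩) ?_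
  intro a b hab
  have h1 : (a : StoneCech X → ℝ) ∘ stoneCechUnit = b ∘ stoneCechUnit := by
    funext x
    exact congrArg (fun k : C(X, ℝ) => k x) hab
  exact DFunLike.coe_injective (denseRange_stoneCechUnit.equalizer a.continuous b.continuous h1)

theorem lindelof_of_card [T35Space X] (halg : EveryALGEBRA.{u, v} X) (D : Set X)
    (hD : ∀ c : D → ℝ, ∃ F : C(X, ℝ), ∀ i : D, F i = c i) (hcard : #C(X, ℝ) ≤ 2 ^ #D) :
    IsLindelof (Ups X) := by
  apply lindelof_of_small
  intro L hL hLX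
  refine small_of_cover halg D hD {g | ∀ x : X, g (stoneCechUnit x) ≠ 0} ?_ (fun g hg => hg) L hL
    (fun p hp => exists_zero_of_notMem p (hLX p hp))
  exact (Cardinal.mk_set_le _).trans (card_le_of_dense.trans hcard)

/-- Every space carrying an unbounded continuous function has an infinite `C`-embedded discrete
subset. -/
lemma exists_C_embedded (f : C(X, ℝ)) (hf : ∀ M : ℝ, ∃ x, M < |f x|) :
    ∃ D : Set X, (∀ c : D → ℝ, ∃ F : C(X, ℝ), ∀ i : D, F i = c i) ∧ #D = ℵ₀ := by
  choose x hx using hf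
  -- a sequence with growing values
  let s : ℕ → X := fun n => Nat.rec (x 0) (fun _ y => x (|f y| + 1)) n
  have hs : ∀ n, |f (s n)| + 1 < |f (s (n + 1))| := fun n => hx _
  have hmono : StrictMono fun n => |f (s n)| := strictMono_nat_of_lt_succ fun n => by
    have := hs n; linarith
  have hgap : ∀ n m, n < m → |f (s n)| + 1 < |f (s m)| := by
    intro n m hnm
    have h1 := hmono.monotone (Nat.succ_le_of_lt hnm)
    have h2 := hs n
    exact lt_of_lt_of_le h2 h1
  have hsinj : Function.Injective s := fun n m hnm => hmono.injective (by simp [hnm])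
  have hemb : IsClosedEmbedding fun n => |f (s n)| := by
    apply Metric.isClosedEmbedding_of_pairwise_le_dist (ε := 1) one_pos
    intro n m hnm
    rw [Real.dist_eq]
    rcases lt_or_gt_of_ne hnm with h | h
    · have := hgap n m h
      rw [abs_sub_comm]
      exact le_trans (by linarith) (le_abs_self _)
    · have := hgap m n h
      exact le_trans (by linarith) (le_abs_self _)
  refine ⟨range s, fun c => ?_, ?_⟩
  · obtain ⟨G, hG⟩ := ContinuousMap.exists_extension (Y := ℝ) hemb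
      (⟨fun n => c ⟨s n, n, rfl⟩, continuous_of_discreteTopology⟩ : C(ℕ, ℝ))
    refine ⟨⟨fun y => G |f y|, by fun_prop⟩, ?_⟩
    rintro ⟨_, n, rfl⟩
    exact congrArg (fun k : C(ℕ, ℝ) => k n) hG
  · have : Infinite (range s) := (Set.infinite_range_of_injective hsinj).to_subtype
    have : Countable (range s) := (countable_range s).to_subtype
    exact Cardinal.mk_eq_aleph0 _

lemma ups_of_bounded (h : ∀ f : C(X, ℝ), ∃ M : ℝ, ∀ x, |f x| ≤ M) : IsLindelof (Ups X) := by
  have huniv : Ups X = Set.univ := by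
    rw [eq_univ_iff_forall]
    intro p f g hfg
    obtain ⟨M, hM⟩ := h f
    refine real_of_bounded_near g p Set.univ isOpen_univ (mem_univ _) M fun x _ => ?_
    rw [hfg x, mem_Icc, EReal.coe_le_coe_iff, EReal.coe_le_coe_iff]
    exact abs_le.mp (hM x)
  rw [huniv]
  exact isCompact_univ.isLindelof

theorem lindelof_of_continuum [T35Space X] (halg : EveryALGEBRA.{u, v} X)
    (hcard : #C(X, ℝ) ≤ 𝔠) : IsLindelof (Ups X) := by
  by_cases hb : ∀ f : C(X, ℝ), ∃ M : ℝ, ∀ x, |f x| ≤ M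
  · exact ups_of_bounded hb
  · push Not at hb
    obtain ⟨f, hf⟩ := hb
    obtain ⟨D, hD, hDc⟩ := exists_C_embedded f hf
    refine lindelof_of_card halg D hD ?_
    rw [hDc, Cardinal.two_power_aleph0]
    exact hcard

lemma card_of_separable [SeparableSpace X] : #C(X, ℝ) ≤ 𝔠 := by
  obtain ⟨S, hS, hSd⟩ := TopologicalSpace.exists_countable_dense X
  have : Countable S := hS.to_subtype
  have h1 : #C(X, ℝ) ≤ #(S → ULift.{u} ℝ) := by
    refine Cardinal.mk_le_of_injective (f := fun (f : C(X, ℝ)) (y : S) => ULift.up (f y)) ?_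
    intro a b hab
    refine DFunLike.coe_injective (hSd.denseRange_val.equalizer a.continuous b.continuous ?_)
    funext y
    have := congrFun hab y
    exact ULift.up_injective this
  refine h1.trans ?_
  rw [Cardinal.mk_arrow]
  simp only [Cardinal.lift_id, Cardinal.mk_uLift, Cardinal.mk_real, Cardinal.lift_continuum]
  calc (𝔠 : Cardinal.{u}) ^ #S ≤ 𝔠 ^ (ℵ₀ : Cardinal.{u}) :=
        Cardinal.power_le_power_left Cardinal.continuum_ne_zero (Cardinal.mk_le_aleph0)
    _ = 𝔠 := Cardinal.continuum_power_aleph0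

/-- **Theorem.** Let `X` be a Tychonoff space such that every ALGEBRA on `X` is a `C(Y)`.

1. If `D` is a `C`-embedded subset of `X` (discrete: every real function on `D` extends to a
continuous function on `X`) and `L` is a compact subset of the Stone–Čech compactification that is
covered by at most `2 ^ |D|` zero sets missing `X`, then `L` is contained in a single zero set
missing `X`.
2. If moreover `|C(X)| ≤ 2 ^ |D|` for such a `D`, the realcompactification of `X` is Lindelöf.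
3. If `|C(X)|` is at most the continuum, the realcompactification of `X` is Lindelöf.
4. If `X` is separable, the realcompactification of `X` is Lindelöf. -/
theorem result (X : Type u) [TopologicalSpace X] [T35Space X]
    (halg : ∀ A : Subalgebra ℝ C(X, ℝ),
      (∀ f : C(X, ℝ), (∀ ε : ℝ, 0 < ε → ∃ g ∈ A, ∀ x : X, |f x - g x| < ε) → f ∈ A) →
      (∀ (F : Set X) (x : X), IsClosed F → x ∉ F → ∃ f ∈ A, f x ∉ closure (f '' F)) →
      (∀ f ∈ A, ∀ g : C(X, ℝ), f * g = 1 → g ∈ A) →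
      ∃ (Y : Type v) (_ : TopologicalSpace Y), Nonempty (A ≃+* C(Y, ℝ))) :
    (∀ D : Set X, (∀ c : D → ℝ, ∃ F : C(X, ℝ), ∀ i : D, F i = c i) →
      ∀ Z : Set C(StoneCech X, ℝ), #Z ≤ 2 ^ #D →
        (∀ g ∈ Z, ∀ x : X, g (stoneCechUnit x) ≠ 0) →
        ∀ L : Set (StoneCech X), IsCompact L → (∀ p ∈ L, ∃ g ∈ Z, g p = 0) →
          ∃ k : C(StoneCech X, ℝ), (∀ x : X, k (stoneCechUnit x) ≠ 0) ∧ ∀ p ∈ L, k p = 0) ∧
    ((∃ D : Set X, (∀ c : D → ℝ, ∃ F : C(X, ℝ), ∀ i : D, F i = c i) ∧ #C(X, ℝ) ≤ 2 ^ #D) ∨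
        #C(X, ℝ) ≤ 𝔠 ∨ SeparableSpace X →
      IsLindelof {p : StoneCech X | ∀ f : C(X, ℝ), ∀ g : C(StoneCech X, EReal),
        (∀ x : X, g (stoneCechUnit x) = ((f x : ℝ) : EReal)) → ∃ r : ℝ, g p = (r : EReal)}) := by
  refine ⟨fun D hD Z hZ hZ0 L hL cov => small_of_cover halg D hD Z hZ hZ0 L hL cov, ?_⟩
  rintro (⟨D, hD, hcard⟩ | hcard | hsep)
  · exact lindelof_of_card halg D hD hcard
  · exact lindelof_of_continuum halg hcard
  · exact lindelof_of_continuum halg card_of_separable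

end Pool.Agent.Results.MP_d63cb0_gt.SmallCardinality
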